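import Pool.Agent.Helper8_HK.Stmt3
import Pool.Agent.Helper19_HK.LAU

/-! TBB: the functions `t_b`. -/

namespace Pool.Agent.HK.H35

open Polynomial Filter Topology

section

variable {F : Type} [Field F] [Fintype F] {C : Type} [NormedField C]
  [IsAlgClosed C] [CompleteSpace C] [IsUltrametricDist C] (ι : Kinf F →+* C)

omit [IsAlgClosed C] [CompleteSpace C] [IsUltrametricDist C] in
theorem one_lt_q : (1 : ℝ) < ((Fintype.card F : ℕ) : ℝ) := by
  exact_mod_cast Fintype.one_lt_card (α := F)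

omit [IsAlgClosed C] [CompleteSpace C] in
theorem hasSum_norm_le {α : Type} {f : α → C} {s : C} {B : ℝ} (h : HasSum f s) (hB : 0 ≤ B)
    (hf : ∀ a, ‖f a‖ ≤ B) : ‖s‖ ≤ B := by
  have h1 : ∀ T : Finset α, ‖∑ a ∈ T, f a‖ ≤ B := fun T =>
    IsUltrametricDist.norm_sum_le_of_forall_le_of_nonneg hB (fun a _ => hf a)
  exact le_of_tendsto h.norm (Eventually.of_forall h1)

omit [IsAlgClosed C] [CompleteSpace C] in
theorem hasSum_tail_le {α : Type} {f : α → C} {s : C} {B : ℝ} (h : HasSum f s) (hB : 0 ≤ B)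
    (S : Finset α) (hf : ∀ a, a ∉ S → ‖f a‖ ≤ B) : ‖(∑ a ∈ S, f a) - s‖ ≤ B := by
  classical
  have h1 : Tendsto (fun T : Finset α => (∑ a ∈ S, f a) - ∑ a ∈ T, f a) atTop
      (𝓝 ((∑ a ∈ S, f a) - s)) := tendsto_const_nhds.sub h
  refine le_of_tendsto h1.norm ?_
  filter_upwards [eventually_ge_atTop S] with T hT
  have h2 : (∑ a ∈ S, f a) - ∑ a ∈ T, f a = - ∑ a ∈ T \ S, f a := by
    rw [← Finset.sum_sdiff hT]; ring
  rw [h2, norm_neg]
  exact IsUltrametricDist.norm_sum_le_of_forall_le_of_nonneg hB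
    (fun a ha => hf a (Finset.mem_sdiff.mp ha).2)

omit [IsAlgClosed C] [CompleteSpace C] [IsUltrametricDist C] [Fintype F] in
theorem emb_ne {b : F[X]} (hb : b ≠ 0) : emb F b ≠ 0 := by
  intro h
  obtain ⟨-, -, -, -, -, -, -, -, -, -, -, h12, -⟩ := H19.lau F
  exact hb (h12 b (by rw [h]; intro i _; simp))

omit [IsAlgClosed C] [CompleteSpace C] [IsUltrametricDist C] [Fintype F] in
theorem e_sub {e : C → C} (he : IsEA ι e) (z w : C) : e (z - w) = e z - e w := by
  have := he.add (z - w) w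
  rw [sub_add_cancel] at this
  rw [this]; ring

/-- The sum for `t_b`. -/
theorem tb_sum {e : C → C} (he : IsEA ι e) {b : F[X]} (hb : b ≠ 0) {z : C} (hz : z ∈ Om ι) :
    e (z / ι (emb F b)) ≠ 0 ∧
    HasSum (fun a : F[X] => (z - ι (emb F (b * a)))⁻¹)
      ((ι (emb F b))⁻¹ * (e (z / ι (emb F b)))⁻¹) := by
  have hβ : ι (emb F b) ≠ 0 := by
    rw [Ne, map_eq_zero]; exact emb_ne hb
  obtain ⟨h1, h2⟩ := he.inv (z / ι (emb F b)) (by
    intro a ha
    rw [div_eq_iff hβ, ← map_mul] at ha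
    exact hz _ ha)
  refine ⟨h1, ?_⟩
  have h3 := h2.mul_left (ι (emb F b))⁻¹
  have h4 : (fun a : F[X] => (z - ι (emb F (b * a)))⁻¹) =
      fun a : F[X] => (ι (emb F b))⁻¹ * (z / ι (emb F b) - ι (emb F a))⁻¹ := by
    funext a
    rw [← mul_inv, mul_sub, map_mul, map_mul, mul_div_cancel₀ _ hβ]
  rw [h4]
  exact h3

theorem tb_eq {e : C → C} (he : IsEA ι e) {b : F[X]} (hb : b ≠ 0) {z : C} (hz : z ∈ Om ι) :
    tb ι b z = (ι (emb F b))⁻¹ * (e (z / ι (emb F b)))⁻¹ :=
  (tb_sum ι he hb hz).2.tsum_eq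

theorem tb_one {e : C → C} (he : IsEA ι e) {z : C} (hz : z ∈ Om ι) :
    tb ι (1 : F[X]) z = (e z)⁻¹ := by
  rw [tb_eq ι he one_ne_zero hz]; simp

end

/-- The digits as a polynomial. -/
noncomputable def dp {F : Type} [Field F] (D : ℕ) (s : Fin (D + 1) → F) : F[X] :=
  ∑ j : Fin (D + 1), Polynomial.C (s j) * X ^ (D - (j : ℕ))

theorem emb_dp {F : Type} [Field F] (D : ℕ) (s : Fin (D + 1) → F) :
    emb F (dp D s) = dig (-(D : ℤ)) s := by
  obtain ⟨-, -, -, h4, h5, h6, -⟩ := H19.lau F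
  rw [dp, map_sum, dig]
  refine Finset.sum_congr rfl fun j _ => ?_
  rw [map_mul, map_pow, h4, h5, ← zpow_natCast, ← zpow_mul]
  congr 2
  have : (j : ℕ) ≤ D := Nat.lt_succ_iff.mp j.2
  push_cast [this]
  ring

theorem coeff_dp {F : Type} [Field F] (D : ℕ) (s : Fin (D + 1) → F) (j : Fin (D + 1)) :
    (dp D s).coeff (D - (j : ℕ)) = s j := by
  classical
  rw [dp, Polynomial.finsetSum_coeff]
  rw [Finset.sum_eq_single j]
  · rw [Polynomial.coeff_C_mul_X_pow]; simp
  · intro i _ hij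
    rw [Polynomial.coeff_C_mul_X_pow, if_neg]
    intro h
    apply hij
    have h1 : (i : ℕ) ≤ D := Nat.lt_succ_iff.mp i.2
    have h2 : (j : ℕ) ≤ D := Nat.lt_succ_iff.mp j.2
    apply Fin.ext
    omega
  · intro h; exact absurd (Finset.mem_univ _) h

theorem dp_inj {F : Type} [Field F] (D : ℕ) : Function.Injective (dp (F := F) D) := by
  intro s s' h
  funext j
  rw [← coeff_dp D s j, ← coeff_dp D s' j, h]

theorem dp_surj {F : Type} [Field F] (D : ℕ) (a : F[X]) (ha : a.natDegree ≤ D) :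
    dp D (fun j => a.coeff (D - (j : ℕ))) = a := by
  ext i
  by_cases hi : i ≤ D
  · have h1 := coeff_dp D (fun j : Fin (D + 1) => a.coeff (D - (j : ℕ))) ⟨D - i, by omega⟩
    simp only at h1
    rw [show D - (D - i) = i by omega] at h1
    exact h1
  · rw [Polynomial.coeff_eq_zero_of_natDegree_lt (lt_of_le_of_lt ha (by omega)),
      dp, Polynomial.finsetSum_coeff]
    refine Finset.sum_eq_zero fun j _ => ?_
    rw [Polynomial.coeff_C_mul_X_pow, if_neg]
    omega

theorem tbb (hIMA : IMAStmt) : TBBStmt := by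
  intro F _ _ C _ _ _ _ ι hι e he
  classical
  obtain ⟨-, i2, i3, i4, i5, i6, i7, i8, i9, i10, i11⟩ := hIMA F C ι hι
  obtain ⟨l1, l2, l3, l4, l5, l6, l7, l8, l9, l10, l11, l12, l13⟩ := H19.lau F
  have hq := one_lt_q (F := F)
  have hq0 : (0 : ℝ) < ((Fintype.card F : ℕ) : ℝ) := by linarith
  have A1 : ∀ x : Kinf F, ‖e (ι x)‖ ≤ (((Fintype.card F : ℕ) : ℝ))⁻¹ := by
    intro x
    obtain ⟨a, ha⟩ := l11 x
    have h1 := i2 _ _ ha
    have h2 : (((Fintype.card F : ℕ) : ℝ)) ^ (-(1 : ℤ)) = (((Fintype.card F : ℕ) : ℝ))⁻¹ := by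
      rw [zpow_neg, zpow_one]
    rw [h2] at h1
    have h3 : ‖ι (x - emb F a)‖ < 1 := lt_of_le_of_lt h1 (inv_lt_one_of_one_lt₀ hq)
    have h4 := he.nrm _ h3
    rw [map_sub, e_sub ι he, he.van, sub_zero] at h4
    rw [h4, ← map_sub]
    exact h1
  refine ⟨A1, ?_, ?_, ?_, ?_⟩
  · intro b z hb hz
    obtain ⟨h1, h2⟩ := tb_sum ι he hb hz
    have h3 := tb_eq ι he hb hz
    have hβ : ι (emb F b) ≠ 0 := by
      rw [Ne, map_eq_zero]; exact emb_ne hb
    refine ⟨h3 ▸ h2, ?_, ?_, h3⟩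
    · rw [h3]; exact mul_ne_zero (inv_ne_zero hβ) (inv_ne_zero h1)
    · have hi := (i6 z hz).1
      have h4 : ‖tb ι b z‖ ≤ (imz ι z)⁻¹ := by
        rw [h3]
        refine hasSum_norm_le h2 (inv_nonneg.mpr hi.le) fun a => ?_
        rw [norm_inv]
        exact inv_anti₀ hi ((i5 z).2 _)
      calc ‖tb ι b z‖ * imz ι z ≤ (imz ι z)⁻¹ * imz ι z :=
            mul_le_mul_of_nonneg_right h4 hi.le
        _ = 1 := inv_mul_cancel₀ hi.ne'
  · intro z x hz hi _
    have hz' : z - ι x ∈ Om ι := by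
      have := ((i7 z (-x)).2).mp hz
      rwa [map_neg, ← sub_eq_add_neg] at this
    have h0 : e z ≠ 0 := by
      have := (tb_sum ι he one_ne_zero hz).1
      simpa using this
    have h0' : e (z - ι x) ≠ 0 := by
      have := (tb_sum ι he one_ne_zero hz').1
      simpa using this
    have ht := tb_one ι he hz
    have ht' := tb_one ι he hz'
    have hn : ‖tb ι (1 : F[X]) z‖ ≤ 1 := by
      have h2 := (tb_sum ι he (one_ne_zero (α := F[X])) hz).2
      have h3 := tb_eq ι he (one_ne_zero (α := F[X])) hz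
      rw [h3]
      refine hasSum_norm_le h2 zero_le_one fun a => ?_
      rw [norm_inv]
      exact inv_le_one_of_one_le₀ (le_trans hi ((i5 z).2 _))
    have hr : ‖e (ι x) * tb ι (1 : F[X]) z‖ < 1 := by
      rw [norm_mul]
      calc ‖e (ι x)‖ * ‖tb ι (1 : F[X]) z‖ ≤ (((Fintype.card F : ℕ) : ℝ))⁻¹ * 1 :=
            mul_le_mul (A1 x) hn (norm_nonneg _) (by positivity)
        _ < 1 := by rw [mul_one]; exact inv_lt_one_of_one_lt₀ hq
    have hs := (hasSum_geometric_of_norm_lt_one hr).mul_right (tb ι (1 : F[X]) z)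
    have e1 : (1 - e (ι x) * tb ι (1 : F[X]) z)⁻¹ * tb ι (1 : F[X]) z =
        tb ι (1 : F[X]) (z - ι x) := by
      rw [ht, ht']
      have h5 : e (z - ι x) = e z - e (ι x) := e_sub ι he _ _
      rw [h5] at h0' ⊢
      have h6 : 1 - e (ι x) * (e z)⁻¹ = (e z - e (ι x)) * (e z)⁻¹ := by
        rw [sub_mul, mul_inv_cancel₀ h0]
      rw [h6, mul_inv, inv_inv, mul_assoc, mul_inv_cancel₀ h0, mul_one]
    rw [e1] at hs
    have h7 : (fun j : ℕ => (e (ι x)) ^ j * (tb ι (1 : F[X]) z) ^ (j + 1)) =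
        fun j : ℕ => (e (ι x) * tb ι (1 : F[X]) z) ^ j * tb ι (1 : F[X]) z := by
      funext j
      rw [mul_pow, pow_succ]; ring
    rw [h7]
    exact hs
  · intro z D hz hzD
    have h2 := (tb_sum ι he (one_ne_zero (α := F[X])) hz).2
    rw [← tb_eq ι he (one_ne_zero (α := F[X])) hz] at h2
    have h3 := hasSum_tail_le (B := (((Fintype.card F : ℕ) : ℝ) ^ (D + 1))⁻¹) h2 (by positivity)
      (Finset.univ.image (dp (F := F) D)) (by
        intro a ha
        have hd : D + 1 ≤ a.natDegree := by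
          by_contra hcon
          exact ha (Finset.mem_image.mpr ⟨_, Finset.mem_univ _, dp_surj D a (by omega)⟩)
        have ha0 : a ≠ 0 := by
          rintro rfl; simp at hd
        have h5 : ‖ι (emb F a)‖ = ((Fintype.card F : ℕ) : ℝ) ^ (a.natDegree : ℕ) := by
          have := i3 (emb F a) (-(a.natDegree : ℤ)) (by
            intro i hi
            have h6 := l1 a i.natAbs
            rw [show -((i.natAbs : ℕ) : ℤ) = i by omega] at h6
            rw [h6]
            exact Polynomial.coeff_eq_zero_of_natDegree_lt (by omega)) (by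
            rw [l1]
            exact Polynomial.leadingCoeff_ne_zero.mpr ha0)
          rw [this, neg_neg, zpow_natCast]
        have h7 : ‖z‖ < ‖ι (emb F a)‖ := by
          rw [h5]
          exact lt_of_le_of_lt hzD (pow_lt_pow_right₀ hq (by omega))
        have h8 : ‖z - ι (emb F (1 * a))‖ = ‖ι (emb F a)‖ := by
          rw [one_mul, norm_sub_rev, sub_eq_add_neg,
            IsUltrametricDist.norm_add_eq_max_of_norm_ne_norm (by rw [norm_neg]; exact h7.ne'),
            norm_neg, max_eq_left h7.le]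
        rw [norm_inv, h8, h5]
        exact inv_anti₀ (by positivity) (pow_le_pow_right₀ hq.le hd))
    rw [Finset.sum_image (fun _ _ _ _ h => dp_inj D h)] at h3
    convert h3 using 4 with s
    rw [one_mul, emb_dp]
  · intro R
    obtain ⟨ρ, hρ⟩ := IsAlgClosed.exists_pow_nat_eq (ι ((unif F)⁻¹)) (n := 2) (by norm_num)
    have hu : ‖ι (unif F)‖ = (((Fintype.card F : ℕ) : ℝ))⁻¹ := by
      have := i3 (unif F) 1 (by
        intro i hi
        rw [unif, HahnSeries.coeff_single_of_ne (by omega)]) (by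
        rw [unif, HahnSeries.coeff_single_same]; exact one_ne_zero)
      rw [this, zpow_neg, zpow_one]
    have hρn : ‖ρ‖ ^ 2 = ((Fintype.card F : ℕ) : ℝ) := by
      rw [← norm_pow, hρ, map_inv₀, norm_inv, hu, inv_inv]
    have hρ1 : 1 < ‖ρ‖ := by
      by_contra hcon
      push Not at hcon
      have : ‖ρ‖ ^ 2 ≤ 1 := pow_le_one₀ (norm_nonneg _) hcon
      linarith
    have hρ2 : ‖ρ‖ < ((Fintype.card F : ℕ) : ℝ) := by
      nlinarith [norm_nonneg ρ]
    obtain ⟨k, hk⟩ := pow_unbounded_of_one_lt R hq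
    have hz : ‖ρ * (ι (unif F))⁻¹ ^ k‖ = ‖ρ‖ * ((Fintype.card F : ℕ) : ℝ) ^ k := by
      rw [norm_mul, norm_pow, norm_inv, hu, inv_inv]
    have hk0 : 0 < ((Fintype.card F : ℕ) : ℝ) ^ k := by positivity
    obtain ⟨h1, h2⟩ := i11 (ρ * (ι (unif F))⁻¹ ^ k) (k : ℤ) (by
      rw [hz, zpow_natCast]; nlinarith) (by
      rw [hz, show ((k : ℤ) + 1) = ((k + 1 : ℕ) : ℤ) by push_cast; ring, zpow_natCast, pow_succ']
      exact mul_lt_mul_of_pos_right hρ2 hk0)
    refine ⟨_, h1, ?_⟩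
    rw [h2, hz]
    nlinarith

end Pool.Agent.HK.H35
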