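import Pool.Agent.Helper35_HK.TBB

/-! UNQ: uniqueness of expansions in powers of `t_b`. -/

namespace Pool.Agent.HK.H35

open Polynomial Filter Topology

/-- A power series that vanishes at arguments tending to `0` is zero. -/
theorem coeff_zero {C : Type} [NormedField C] [IsUltrametricDist C] (d : ℕ → C)
    (h : ∀ ε : ℝ, 0 < ε → ∃ u : C, u ≠ 0 ∧ ‖u‖ < ε ∧ HasSum (fun i : ℕ => d i * u ^ i) 0) :
    ∀ m, d m = 0 := by
  obtain ⟨u0, hu0, -, hs0⟩ := h 1 one_pos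
  have hU : 0 < ‖u0‖ := norm_pos_iff.mpr hu0
  -- the terms are bounded
  obtain ⟨A, hA0, hA⟩ : ∃ A : ℝ, 0 ≤ A ∧ ∀ i, ‖d i‖ * ‖u0‖ ^ i ≤ A := by
    have h1 : Tendsto (fun i : ℕ => ‖d i * u0 ^ i‖) atTop (𝓝 0) := by
      have := hs0.summable.tendsto_atTop_zero.norm
      simpa using this
    obtain ⟨A, hA⟩ := h1.bddAbove_range
    refine ⟨A, le_trans (norm_nonneg _) (hA ⟨0, rfl⟩), fun i => ?_⟩
    have := hA ⟨i, rfl⟩
    simpa [norm_mul, norm_pow] using this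
  intro m
  induction m using Nat.strong_induction_on with
  | _ m ih =>
    by_contra hm
    have hm' : 0 < ‖d m‖ := norm_pos_iff.mpr hm
    obtain ⟨u, hu, hul, hs⟩ := h (min ‖u0‖ (‖d m‖ * ‖u0‖ ^ (m + 1) / (A + 1))) (by positivity)
    have hu1 : ‖u‖ < ‖u0‖ := lt_of_lt_of_le hul (min_le_left _ _)
    have hu2 : ‖u‖ < ‖d m‖ * ‖u0‖ ^ (m + 1) / (A + 1) := lt_of_lt_of_le hul (min_le_right _ _)
    have hup : 0 < ‖u‖ := norm_pos_iff.mpr hu
    -- the tail
    have h1 := hasSum_tail_le (B := A * (‖u‖ / ‖u0‖) ^ (m + 1)) hs (by positivity)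
      (Finset.range (m + 1)) (by
        intro i hi
        rw [Finset.mem_range, not_lt] at hi
        have h2 : ‖d i * u ^ i‖ = ‖d i‖ * ‖u0‖ ^ i * (‖u‖ / ‖u0‖) ^ i := by
          rw [norm_mul, norm_pow, div_pow]; field_simp
        rw [h2]
        have h3 : (‖u‖ / ‖u0‖) ^ i ≤ (‖u‖ / ‖u0‖) ^ (m + 1) :=
          pow_le_pow_of_le_one (by positivity) ((div_le_one hU).mpr hu1.le) hi
        exact mul_le_mul (hA i) h3 (by positivity) hA0)
    have h4 : ∑ i ∈ Finset.range (m + 1), d i * u ^ i = d m * u ^ m := by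
      rw [Finset.sum_range_succ, Finset.sum_eq_zero, zero_add]
      intro i hi
      rw [ih i (Finset.mem_range.mp hi), zero_mul]
    rw [h4, sub_zero, norm_mul, norm_pow, div_pow, pow_succ ‖u‖, mul_div_assoc'] at h1
    have hum : 0 < ‖u‖ ^ m := by positivity
    have h5 : ‖d m‖ * ‖u0‖ ^ (m + 1) ≤ A * ‖u‖ := by
      rw [le_div_iff₀ (by positivity)] at h1
      have h6 : ‖u‖ ^ m * (‖d m‖ * ‖u0‖ ^ (m + 1)) ≤ ‖u‖ ^ m * (A * ‖u‖) := by
        calc _ = ‖d m‖ * ‖u‖ ^ m * ‖u0‖ ^ (m + 1) := by ring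
          _ ≤ A * (‖u‖ ^ m * ‖u‖) := h1
          _ = _ := by ring
      exact le_of_mul_le_mul_left h6 hum
    rw [lt_div_iff₀ (by positivity)] at hu2
    nlinarith

theorem unq (hTBB : TBBStmt) (hTEX : TEXStmt) : UNQStmt := by
  intro F _ _ C _ _ _ _ ι hι c b f a a' hc hb ha ha'
  obtain ⟨e, he⟩ := hTEX F C ι hι
  obtain ⟨-, t2, -, -, t5⟩ := hTBB F C ι hι e he
  obtain ⟨R, hR⟩ := ha
  obtain ⟨R', hR'⟩ := ha'
  have key := coeff_zero (fun i => a i - a' i) (by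
    intro ε hε
    obtain ⟨z, hz, hi⟩ := t5 (max (max R R') (max 1 (‖c‖⁻¹ / ε + 1)))
    have h1 : R ≤ imz ι z := le_trans (le_trans (le_max_left _ _) (le_max_left _ _)) hi
    have h2 : R' ≤ imz ι z := le_trans (le_trans (le_max_right _ _) (le_max_left _ _)) hi
    have h3 : 1 ≤ imz ι z := le_trans (le_trans (le_max_left _ _) (le_max_right _ _)) hi
    have h4 : ‖c‖⁻¹ / ε + 1 ≤ imz ι z := le_trans (le_trans (le_max_right _ _) (le_max_right _ _)) hi
    obtain ⟨-, s2, s3, -⟩ := t2 b z hb hz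
    have hcn : 0 < ‖c‖ := norm_pos_iff.mpr hc
    refine ⟨c⁻¹ * tb ι b z, mul_ne_zero (inv_ne_zero hc) s2, ?_, ?_⟩
    · rw [norm_mul, norm_inv]
      have h5 : 0 < imz ι z := by linarith
      have h6 : ‖tb ι b z‖ ≤ (imz ι z)⁻¹ := by
        rw [← one_div, le_div_iff₀ h5]; exact s3
      have h7 : ‖c‖⁻¹ / ε < imz ι z := by linarith
      calc ‖c‖⁻¹ * ‖tb ι b z‖ ≤ ‖c‖⁻¹ * (imz ι z)⁻¹ :=
            mul_le_mul_of_nonneg_left h6 (by positivity)
        _ < ε := by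
            rw [← div_eq_mul_inv, div_lt_iff₀ h5]
            rw [div_lt_iff₀ hε] at h7
            linarith
    · have h8 := (hR z hz h1).sub (hR' z hz h2)
      rw [sub_self] at h8
      have h9 : (fun i : ℕ => (a i - a' i) * (c⁻¹ * tb ι b z) ^ i) =
          fun i : ℕ => a i * (c⁻¹ * tb ι b z) ^ i - a' i * (c⁻¹ * tb ι b z) ^ i := by
        funext i; ring
      rw [h9]; exact h8)
  funext i
  exact sub_eq_zero.mp (key i)

end Pool.Agent.HK.H35
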